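import Pool.Agent.W983.PL.Stm

set_option autoImplicit false
open Set Topology

namespace Pool.Agent.W237.PC
open Pool.Agent.W983.PL

theorem word_aux (g : ℕ → HC) (D : ℕ × Bool → Set Circle)
    (h1 : ∀ s t, s ≠ t → Disjoint (D s) (D t)) (h2 : ∀ s z, z ∉ D (inv s) → lt g s z ∈ D s)
    (o : Circle) (ho : ∀ s, o ∉ D s) (L : List (ℕ × Bool)) :
    ∀ s, FreeGroup.IsReduced (s :: L) → ((s :: L).map (lt g)).prod o ∈ D s := by
  induction L with
  | nil =>
    intro s _
    simpa using h2 s o (ho _)
  | cons t L ih =>
    intro s hs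
    rw [List.map_cons, List.prod_cons]
    have h3 := ih t
    rw [FreeGroup.isReduced_cons_cons] at hs
    have h4 := h3 hs.2
    apply h2
    intro h5
    have h6 : t ≠ inv s := by
      intro h
      rw [h] at hs
      simp [inv] at hs
    exact (Set.disjoint_left.1 (h1 t (inv s) h6)) h4 h5

theorem word : S_WORD := by
  intro g D h1 h2 o ho w hw
  have hr := FreeGroup.isReduced_toWord (x := w)
  have hm : FreeGroup.lift g w = (w.toWord.map (lt g)).prod := by
    conv_lhs => rw [← FreeGroup.mk_toWord (x := w)]
    rw [FreeGroup.lift_mk]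
    rfl
  cases hL : w.toWord with
  | nil => exact absurd (FreeGroup.toWord_eq_nil_iff.1 hL) hw
  | cons s L =>
    refine ⟨s, ?_⟩
    rw [hm, hL]
    rw [hL] at hr
    exact word_aux g D h1 h2 o ho L s hr

theorem tf : S_TF := by
  intro g hg
  constructor
  · rintro h ⟨w, rfl⟩ n hn h1
    rw [← map_pow] at h1
    have h2 : w ^ n = 1 := hg (by rw [h1, map_one])
    have h3 : w = 1 := by
      by_contra hne
      exact hne ((pow_eq_one_iff_left hn.ne').1 h2)
    rw [h3, map_one]
  · have : Countable (FreeGroup ℕ) := FreeGroup.toWord_injective.countable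
    exact (FreeGroup.lift g).rangeRestrict_surjective.countable

end Pool.Agent.W237.PC
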